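import Mathlib

/-! MP_36d240_al: primary conjugacy is not transitive in a group-embeddable semigroup. -/

namespace Pool.Agent.Results.MP_36d240_al.NotTransitive

/-- Primary conjugacy: `a = u v` and `b = v u` with `u, v` in the semigroup with an adjoined one. -/
def PConj {S : Type*} [Semigroup S] (a b : S) : Prop :=
  ∃ u v : WithOne S, (a : WithOne S) = u * v ∧ (b : WithOne S) = v * u

/-- the finite group used -/
abbrev F : Type := Equiv.Perm (Fin 3)

def pu : F := Equiv.swap 1 2
def pv : F := finRotate 3
def px : F := (finRotate 3)⁻¹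
def py : F := px⁻¹ * pv * pu

def inA (g : F) : Prop := g = pu ∨ g = pv ∨ g = px ∨ g = py

instance : DecidablePred inA := fun g => by unfold inA; infer_instance

/-- The semigroup: degree at least two, or degree one with first component among four elements. -/
def S : Subsemigroup (F × Multiplicative ℤ) where
  carrier := {p | 2 ≤ p.2.toAdd ∨ (p.2.toAdd = 1 ∧ inA p.1)}
  mul_mem' := by
    intro a b ha hb
    left
    have h1 : 1 ≤ a.2.toAdd := by rcases ha with h | h <;> omega
    have h2 : 1 ≤ b.2.toAdd := by rcases hb with h | h <;> omega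
    have : (a * b).2.toAdd = a.2.toAdd + b.2.toAdd := rfl
    omega

def mk2 (g : F) : S := ⟨(g, Multiplicative.ofAdd 2), Or.inl (le_refl _)⟩
def mk1 (g : F) (hg : inA g) : S := ⟨(g, Multiplicative.ofAdd 1), Or.inr ⟨rfl, hg⟩⟩

theorem mk_mul (g h : F) (hg : inA g) (hh : inA h) : mk1 g hg * mk1 h hh = mk2 (g * h) := rfl

theorem pconj_mk (g h : F) (hg : inA g) (hh : inA h) : PConj (mk2 (g * h)) (mk2 (h * g)) :=
  ⟨(mk1 g hg : WithOne S), (mk1 h hh : WithOne S), by rw [← WithOne.coe_mul, mk_mul],
    by rw [← WithOne.coe_mul, mk_mul]⟩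

theorem fin_check : ∀ g h : F, inA g → inA h → g * h = pu * pv → h * g = py * px → False := by
  decide

theorem not_pconj : ¬ PConj (mk2 (pu * pv)) (mk2 (py * px)) := by
  rintro ⟨u, v, h1, h2⟩
  have hne : mk2 (pu * pv) ≠ mk2 (py * px) := by
    intro h
    have := congrArg (fun p : S => p.1.1) h
    revert this
    decide
  rcases eq_or_ne u 1 with rfl | hu0
  · rw [one_mul] at h1
    rw [mul_one] at h2
    exact hne (WithOne.coe_injective (h1.trans h2.symm))
  · rcases eq_or_ne v 1 with rfl | hv0
    · rw [mul_one] at h1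
      rw [one_mul] at h2
      exact hne (WithOne.coe_injective (h1.trans h2.symm))
    · obtain ⟨u, rfl⟩ := WithOne.ne_one_iff_exists.1 hu0
      obtain ⟨v, rfl⟩ := WithOne.ne_one_iff_exists.1 hv0
      rw [← WithOne.coe_mul] at h1 h2
      have h1 := WithOne.coe_injective h1
      have h2 := WithOne.coe_injective h2
      obtain ⟨⟨g, m⟩, hu⟩ := u
      obtain ⟨⟨h, n⟩, hv⟩ := v
      have e1 : (pu * pv, Multiplicative.ofAdd (2 : ℤ)) = (g * h, m * n) :=
        congrArg Subtype.val h1
      have e2 : (py * px, Multiplicative.ofAdd (2 : ℤ)) = (h * g, n * m) :=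
        congrArg Subtype.val h2
      have e3 : (2 : ℤ) = m.toAdd + n.toAdd := congrArg Multiplicative.toAdd (Prod.mk.inj e1).2
      have hu' : 2 ≤ m.toAdd ∨ (m.toAdd = 1 ∧ inA g) := hu
      have hv' : 2 ≤ n.toAdd ∨ (n.toAdd = 1 ∧ inA h) := hv
      have hg : inA g := by
        rcases hu' with h | h
        · rcases hv' with h' | h' <;> omega
        · exact h.2
      have hh : inA h := by
        rcases hv' with h | h
        · rcases hu' with h' | h' <;> omega
        · exact h.2
      exact fin_check g h hg hh (Prod.mk.inj e1).1.symm (Prod.mk.inj e2).1.symm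

/-- There is a semigroup embeddable in a group (hence cancellative) in which primary conjugacy
is not transitive. -/
theorem result : ∃ (S : Type) (_ : Semigroup S),
    (∀ a b c : S, a * c = b * c → a = b) ∧ (∀ a b c : S, c * a = c * b → a = b) ∧
    (∃ (G : Type) (_ : Group G) (f : S →ₙ* G), Function.Injective f) ∧
    ∃ a b c : S, PConj a b ∧ PConj b c ∧ ¬ PConj a c := by
  have hcan1 : ∀ a b c : S, a * c = b * c → a = b := fun a b c h =>
    Subtype.ext (mul_right_cancel (congrArg Subtype.val h))
  have hcan2 : ∀ a b c : S, c * a = c * b → a = b := fun a b c h =>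
    Subtype.ext (mul_left_cancel (congrArg Subtype.val h))
  refine ⟨S, inferInstance, hcan1, hcan2, ⟨F × Multiplicative ℤ, inferInstance,
    MulMemClass.subtype S, Subtype.val_injective⟩, mk2 (pu * pv), mk2 (pv * pu), mk2 (py * px),
    pconj_mk _ _ (by decide) (by decide), ?_, not_pconj⟩
  have : pv * pu = px * py := by decide
  rw [this]
  exact pconj_mk _ _ (by decide) (by decide)

end Pool.Agent.Results.MP_36d240_al.NotTransitive
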